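import Mathlib

/-!
# Project CR, package FIN: maps with logarithmic descent
-/

set_option autoImplicit false

open Filter

namespace Pool.Agent.U97.CR

/-- FIN: maps with logarithmic descent have finitely many periodic points and reach them in logarithmic time -/
def S_FIN : Prop := ∀ (f : ℕ → ℕ) (C : ℝ), 0 ≤ C →
  (∀ᶠ n : ℕ in atTop, ∃ m : ℕ, (m : ℝ) ≤ C * Real.log n ∧ ((f^[m] n : ℕ) : ℝ) ≤ Real.sqrt n) →
  (Function.periodicPts f).Finite ∧ ∃ D : ℝ, ∀ n : ℕ, 1 ≤ n →
    ∃ m : ℕ, (m : ℝ) ≤ 2 * C * Real.log n + D ∧ f^[m] n ∈ Function.periodicPts f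

lemma log_nat_nonneg (n : ℕ) : 0 ≤ Real.log (n : ℝ) := Real.log_natCast_nonneg n

/-- Package FIN. -/
theorem t_FIN : S_FIN := by
  intro f C hC hev
  obtain ⟨N0, hN0⟩ := eventually_atTop.1 hev
  obtain ⟨N1, h4, hN1⟩ : ∃ N1 : ℕ, 4 ≤ N1 ∧ ∀ n : ℕ, N1 ≤ n →
      ∃ m : ℕ, (m : ℝ) ≤ C * Real.log n ∧ ((f^[m] n : ℕ) : ℝ) ≤ Real.sqrt n :=
    ⟨max N0 4, le_max_right _ _, fun n hn => hN0 n ((le_max_left _ _).trans hn)⟩
  have h1 : ∀ n : ℕ, ∃ m : ℕ, (m : ℝ) ≤ 2 * C * Real.log n ∧ f^[m] n < N1 := by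
    intro n
    induction n using Nat.strong_induction_on with
    | _ n ih =>
      rcases Nat.lt_or_ge n N1 with hn | hn
      · refine ⟨0, ?_, hn⟩
        have := log_nat_nonneg n
        push_cast
        positivity
      · obtain ⟨m1, hm1, hm2⟩ := hN1 n hn
        have hn4 : (4 : ℝ) ≤ n := by exact_mod_cast h4.trans hn
        have hs : Real.sqrt n < n := by
          rw [Real.sqrt_lt' (by linarith)]
          nlinarith
        have hlt : f^[m1] n < n := by exact_mod_cast hm2.trans_lt hs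
        obtain ⟨m2, hm3, hm4⟩ := ih _ hlt
        refine ⟨m2 + m1, ?_, ?_⟩
        · have hlog : Real.log ((f^[m1] n : ℕ) : ℝ) ≤ Real.log n / 2 := by
            rw [← Real.log_sqrt (by linarith)]
            rcases Nat.eq_zero_or_pos (f^[m1] n) with h0 | h0
            · rw [h0, Nat.cast_zero, Real.log_zero]
              apply Real.log_nonneg
              rw [Real.one_le_sqrt]
              linarith
            · exact Real.log_le_log (by exact_mod_cast h0) hm2
          have : 2 * C * Real.log ((f^[m1] n : ℕ) : ℝ) ≤ 2 * C * (Real.log n / 2) :=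
            mul_le_mul_of_nonneg_left hlog (by positivity)
          push_cast
          linarith
        · rw [Function.iterate_add_apply]
          exact hm4
  have h2 : ∀ x : ℕ, ∃ k : ℕ, f^[k] x ∈ Function.periodicPts f := by
    intro x
    have hinf : {k : ℕ | f^[k] x < N1}.Infinite := by
      rw [Set.infinite_iff_exists_gt]
      intro K
      obtain ⟨m, -, hm⟩ := h1 (f^[K + 1] x)
      refine ⟨m + (K + 1), ?_, by omega⟩
      show f^[m + (K + 1)] x < N1
      rw [Function.iterate_add_apply]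
      exact hm
    obtain ⟨k, -, l, -, hkl, he⟩ := hinf.exists_lt_map_eq_of_mapsTo
      (f := fun k => f^[k] x) (t := Set.Iio N1) (fun k hk => hk) (Set.finite_Iio N1)
    refine ⟨k, Function.mk_mem_periodicPts (show 0 < l - k by omega) ?_⟩
    show f^[l - k] (f^[k] x) = f^[k] x
    rw [← Function.iterate_add_apply, Nat.sub_add_cancel hkl.le]
    exact he.symm
  choose κ hκ using h2
  refine ⟨?_, ((Finset.range N1).sup κ : ℕ), ?_⟩
  · have hfin : (⋃ z ∈ Set.Iio N1, (fun k => f^[k] z) '' Set.Iio (Function.minimalPeriod f z)).Finite :=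
      Set.Finite.biUnion (Set.finite_Iio N1) fun z _ => (Set.finite_Iio _).image _
    refine hfin.subset ?_
    rintro x ⟨p, hp, hx⟩
    obtain ⟨m, -, hm⟩ := h1 x
    have hz : Function.IsPeriodicPt f p (f^[m] x) := hx.apply_iterate m
    have hpos := hz.minimalPeriod_pos hp
    refine Set.mem_biUnion (x := f^[m] x) hm ?_
    refine ⟨(p * m - m) % Function.minimalPeriod f (f^[m] x), Nat.mod_lt _ hpos, ?_⟩
    show f^[(p * m - m) % Function.minimalPeriod f (f^[m] x)] (f^[m] x) = x
    rw [Function.iterate_mod_minimalPeriod_eq, ← Function.iterate_add_apply,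
      Nat.sub_add_cancel (Nat.le_mul_of_pos_left m hp)]
    exact hx.mul_const m
  · intro n _
    obtain ⟨m1, hm1, hm2⟩ := h1 n
    refine ⟨κ (f^[m1] n) + m1, ?_, ?_⟩
    · have h3 : κ (f^[m1] n) ≤ (Finset.range N1).sup κ :=
        Finset.le_sup (f := κ) (Finset.mem_range.2 hm2)
      have h5 : (κ (f^[m1] n) : ℝ) ≤ (((Finset.range N1).sup κ : ℕ) : ℝ) := by exact_mod_cast h3
      push_cast at h5 ⊢
      linarith
    · rw [Function.iterate_add_apply]
      exact hκ _

end Pool.Agent.U97.CR
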